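import Pool.Agent.Helper50_DP.StmtsC

/-!
# Squad DP, module LDIM: lower bound for the number of logarithmic forms
-/

open MvPolynomial PGH PGL

namespace Pool.Agent.DP.H90

open Pool.Agent.DP

theorem DD_succ (n p c : ℕ) : DD (n + 1) p c = DD n p c + newf (n + 1) p c := by
  rw [DD, DD, Finset.sum_range_succ, add_assoc]

theorem ldim_aux (hB : LbasStmt) (hI : LindStmt) {K : Type} [Field K] {N : ℕ}
    {L : Fin N → Fin 3 → K} {p c : ℕ} (hL : GenPos L) (hpc : p ≤ c + 1) (m : ℕ) :
    ∀ S : Finset (Fin N), S.card = m + 3 →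
      ∃ g : Fin (DD m p c) → MvPolynomial (Fin 2 × Fin 3) K,
        (∀ t, g t ∈ LogP L S p c) ∧ LinearIndependent K g := by
  induction m with
  | zero =>
    intro S hS
    have h0 : DD 0 p c = (p + 1) * ((c + 1) * (c + 2) / 2) := by
      rw [DD, Finset.sum_range_zero, add_zero]
    rw [h0]
    exact hB K N L S p c hL hS
  | succ m ih =>
    intro S hS
    obtain ⟨i, hi⟩ : S.Nonempty := by
      rw [← Finset.card_pos, hS]
      omega
    have hc : (S.erase i).card = m + 3 := by
      rw [Finset.card_erase_of_mem hi, hS]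
      omega
    obtain ⟨f, hf1, hf2⟩ := ih _ hc
    obtain ⟨g, hg1, hg2⟩ := hI K N L (S.erase i) i (m + 1) p c (DD m p c) f hL
      (Finset.notMem_erase i S) (by rw [hc]) hpc hf1 hf2
    rw [DD_succ]
    rw [Finset.insert_erase hi] at hg1
    exact ⟨g, hg1, hg2⟩

/-- LDIM -/
theorem ldim (hB : LbasStmt) (hI : LindStmt) : LdimStmt := by
  intro K _ n N L p c hL hN hpc
  exact ldim_aux hB hI hL hpc n Finset.univ (by rw [Finset.card_univ, Fintype.card_fin, hN])

end Pool.Agent.DP.H90
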